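import Mathlib

set_option autoImplicit false

/-!
Exponential congruences in one base modulo `p^k - 1`.
-/

namespace Pool.Agent.TH742.HV

/-- Three points on a cycle of length `k` lie in an arc of length at most `2k/3`. -/
lemma arc (k i j : ℕ) (hi : i < k) (hj : j < k) : ∃ s i' j' : ℕ, 3 * s ≤ 2 * k ∧
    3 * i' ≤ 2 * k ∧ 3 * j' ≤ 2 * k ∧ (k : ℤ) ∣ (i : ℤ) + s - i' ∧ (k : ℤ) ∣ (j : ℤ) + s - j' := by
  by_cases ha : 3 * i ≤ 2 * k ∧ 3 * j ≤ 2 * k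
  · exact ⟨0, i, j, by omega, ha.1, ha.2, by simp, by simp⟩
  rcases le_total i j with hij | hij
  · by_cases hb : k ≤ 3 * i
    · refine ⟨k - i, 0, j - i, by omega, by omega, by omega, ⟨1, by omega⟩, ⟨1, by omega⟩⟩
    · refine ⟨k - j, i + (k - j), 0, by omega, by omega, by omega, ⟨0, by omega⟩, ⟨1, by omega⟩⟩
  · by_cases hb : k ≤ 3 * j
    · refine ⟨k - j, i - j, 0, by omega, by omega, by omega, ⟨1, by omega⟩, ⟨1, by omega⟩⟩
    · refine ⟨k - i, 0, j + (k - i), by omega, by omega, by omega, ⟨1, by omega⟩, ⟨0, by omega⟩⟩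

lemma pow_sub_pow_dvd_aux (p : ℤ) (k a b : ℕ) (hab : b ≤ a) (h : (k : ℤ) ∣ (a : ℤ) - b) :
    p ^ k - 1 ∣ p ^ a - p ^ b := by
  obtain ⟨c, hc⟩ := (Int.natCast_dvd_natCast.mp (by rwa [Nat.cast_sub hab]) : k ∣ a - b)
  have h1 : a = b + k * c := by omega
  have h2 : p ^ a - p ^ b = p ^ b * ((p ^ k) ^ c - 1 ^ c) := by
    rw [h1, pow_add, pow_mul, one_pow]; ring
  rw [h2]
  exact Dvd.dvd.mul_left (sub_dvd_pow_sub_pow _ _ _) _

lemma pow_sub_pow_dvd (p : ℤ) (k a b : ℕ) (h : (k : ℤ) ∣ (a : ℤ) - b) :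
    p ^ k - 1 ∣ p ^ a - p ^ b := by
  rcases le_total b a with hab | hab
  · exact pow_sub_pow_dvd_aux p k a b hab h
  · have := pow_sub_pow_dvd_aux p k b a hab (by rw [← neg_sub]; exact h.neg_right)
    have h2 := this.neg_right
    rwa [neg_sub] at h2

/-- A solution modulo `p^k - 1` comes from an exact solution. -/
lemma exact_of_congr {p : ℕ} (hp : 2 ≤ p) (k : ℕ) (B D C : ℤ)
    (hk : 3 * (B.natAbs + D.natAbs + C.natAbs + 1) ≤ k) (e₁ e₂ t : ℕ)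
    (h : (p : ℤ) ^ k - 1 ∣ B * (p : ℤ) ^ e₁ - D * (p : ℤ) ^ e₂ - C * (p : ℤ) ^ t) :
    ∃ s i j : ℕ, B * (p : ℤ) ^ i - D * (p : ℤ) ^ j = C * (p : ℤ) ^ s ∧
      (k : ℤ) ∣ ((e₁ : ℤ) - t) - ((i : ℤ) - s) ∧ (k : ℤ) ∣ ((e₂ : ℤ) - t) - ((j : ℤ) - s) := by
  have hk0 : 0 < k := by omega
  have hkz : (0 : ℤ) < k := by exact_mod_cast hk0
  obtain ⟨i0, hi0⟩ : ∃ i0 : ℕ, (i0 : ℤ) = ((e₁ : ℤ) - t) % k :=
    ⟨(((e₁ : ℤ) - t) % k).toNat, Int.toNat_of_nonneg (Int.emod_nonneg _ hkz.ne')⟩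
  obtain ⟨j0, hj0⟩ : ∃ j0 : ℕ, (j0 : ℤ) = ((e₂ : ℤ) - t) % k :=
    ⟨(((e₂ : ℤ) - t) % k).toNat, Int.toNat_of_nonneg (Int.emod_nonneg _ hkz.ne')⟩
  have hi1 : i0 < k := by
    have := Int.emod_lt_of_pos ((e₁ : ℤ) - t) hkz
    rw [← hi0] at this
    exact_mod_cast this
  have hj1 : j0 < k := by
    have := Int.emod_lt_of_pos ((e₂ : ℤ) - t) hkz
    rw [← hj0] at this
    exact_mod_cast this
  have hi2 : (k : ℤ) ∣ ((e₁ : ℤ) - t) - i0 := by rw [hi0]; exact Int.dvd_self_sub_emod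
  have hj2 : (k : ℤ) ∣ ((e₂ : ℤ) - t) - j0 := by rw [hj0]; exact Int.dvd_self_sub_emod
  obtain ⟨s, i, j, h3, h4, h5, h6, h7⟩ := arc k i0 j0 hi1 hj1
  have hi3 : (k : ℤ) ∣ ((e₁ : ℤ) - t) - ((i : ℤ) - s) := by
    have := dvd_add hi2 h6
    refine this.trans (dvd_of_eq ?_)
    ring
  have hj3 : (k : ℤ) ∣ ((e₂ : ℤ) - t) - ((j : ℤ) - s) := by
    have := dvd_add hj2 h7
    refine this.trans (dvd_of_eq ?_)
    ring
  refine ⟨s, i, j, ?_, hi3, hj3⟩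
  set P : ℤ := (p : ℤ) with hP
  set T : ℤ := B * P ^ i - D * P ^ j - C * P ^ s with hT
  have hN : P ^ k - 1 ∣ P ^ t * T := by
    have e1 : P ^ k - 1 ∣ P ^ (i + t) - P ^ (e₁ + s) :=
      pow_sub_pow_dvd P k _ _ (by
        push_cast
        refine (dvd_neg.mpr hi3).trans (dvd_of_eq ?_)
        ring)
    have e2 : P ^ k - 1 ∣ P ^ (j + t) - P ^ (e₂ + s) :=
      pow_sub_pow_dvd P k _ _ (by
        push_cast
        refine (dvd_neg.mpr hj3).trans (dvd_of_eq ?_)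
        ring)
    have e3 : P ^ t * T = B * (P ^ (i + t) - P ^ (e₁ + s)) - D * (P ^ (j + t) - P ^ (e₂ + s)) +
        P ^ s * (B * P ^ e₁ - D * P ^ e₂ - C * P ^ t) := by
      rw [hT]
      ring
    rw [e3]
    exact dvd_add (dvd_sub (e1.mul_left _) (e2.mul_left _)) (h.mul_left _)
  have hcop : IsCoprime (P ^ k - 1) (P ^ t) := by
    apply IsCoprime.pow_right
    refine ⟨-1, P ^ (k - 1), ?_⟩
    have : P ^ (k - 1) * P = P ^ k := by
      rw [← pow_succ]; congr 1; omega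
    rw [this]; ring
  have hdvd : P ^ k - 1 ∣ T := hcop.dvd_of_dvd_mul_left hN
  have hT0 : T = 0 := by
    apply Int.eq_zero_of_abs_lt_dvd hdvd
    -- size estimate
    have hP1 : (1 : ℤ) ≤ P := by rw [hP]; exact_mod_cast (by omega : 1 ≤ p)
    have hP2 : (2 : ℤ) ≤ P := by rw [hP]; exact_mod_cast hp
    obtain ⟨e, he1, he2, he3, he4⟩ : ∃ e : ℕ, i ≤ e ∧ j ≤ e ∧ s ≤ e ∧ 3 * e ≤ 2 * k :=
      ⟨max i (max j s), le_max_left _ _, le_trans (le_max_left _ _) (le_max_right _ _),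
        le_trans (le_max_right _ _) (le_max_right _ _), by
          rcases max_choice i (max j s) with hm | hm
          · rw [hm]; exact h4
          · rw [hm]
            rcases max_choice j s with hm' | hm'
            · rw [hm']; exact h5
            · rw [hm']; exact h3⟩
    have q1 : P ^ i ≤ P ^ e := pow_le_pow_right₀ hP1 he1
    have q2 : P ^ j ≤ P ^ e := pow_le_pow_right₀ hP1 he2
    have q3 : P ^ s ≤ P ^ e := pow_le_pow_right₀ hP1 he3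
    have p1 : (0 : ℤ) < P ^ i := by positivity
    have p2 : (0 : ℤ) < P ^ j := by positivity
    have p3 : (0 : ℤ) < P ^ s := by positivity
    have p4 : (1 : ℤ) ≤ P ^ e := one_le_pow₀ hP1
    have a1 : |B * P ^ i| ≤ |B| * P ^ e := by
      rw [abs_mul, abs_of_pos p1]; exact mul_le_mul_of_nonneg_left q1 (abs_nonneg _)
    have a2 : |D * P ^ j| ≤ |D| * P ^ e := by
      rw [abs_mul, abs_of_pos p2]; exact mul_le_mul_of_nonneg_left q2 (abs_nonneg _)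
    have a3 : |C * P ^ s| ≤ |C| * P ^ e := by
      rw [abs_mul, abs_of_pos p3]; exact mul_le_mul_of_nonneg_left q3 (abs_nonneg _)
    have a4 : |T| ≤ (|B| + |D| + |C|) * P ^ e := by
      calc |T| ≤ |B * P ^ i - D * P ^ j| + |C * P ^ s| := abs_sub _ _
        _ ≤ |B * P ^ i| + |D * P ^ j| + |C * P ^ s| := by
            have := abs_sub (B * P ^ i) (D * P ^ j)
            linarith
        _ ≤ _ := by linarith
    have a5 : (|B| + |D| + |C| + 2 : ℤ) ≤ P ^ (k - e) := by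
      have b1 : B.natAbs + D.natAbs + C.natAbs + 1 ≤ k - e := by omega
      have b2 : k - e < 2 ^ (k - e) := Nat.lt_two_pow_self
      have b3 : (B.natAbs + D.natAbs + C.natAbs + 2 : ℕ) ≤ 2 ^ (k - e) := by omega
      have b4 : ((B.natAbs + D.natAbs + C.natAbs + 2 : ℕ) : ℤ) ≤ 2 ^ (k - e) := by
        exact_mod_cast b3
      push_cast at b4
      exact b4.trans (pow_le_pow_left₀ (by norm_num) hP2 _)
    have a6 : P ^ k = P ^ (k - e) * P ^ e := by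
      rw [← pow_add]; congr 1; omega
    rw [a6]
    nlinarith
  rw [hT] at hT0
  linarith

lemma bd_aux {p : ℕ} (hp : 2 ≤ p) (A₁ A₂ A₃ : ℤ) (h₂ : A₂ ≠ 0) (h₃ : A₃ ≠ 0)
    (e₁ e₂ : ℕ) (h12 : e₁ ≤ e₂) (h : A₁ * (p : ℤ) ^ e₁ + A₂ * (p : ℤ) ^ e₂ = A₃) :
    (e₁ : ℤ) ≤ (|A₁| + |A₂| + |A₃| + 1) ^ 2 ∧ (e₂ : ℤ) ≤ (|A₁| + |A₂| + |A₃| + 1) ^ 2 := by
  set P : ℤ := (p : ℤ) with hP
  have hP2 : (2 : ℤ) ≤ P := by rw [hP]; exact_mod_cast hp
  have lt_pow : ∀ e : ℕ, (e : ℤ) < P ^ e := by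
    intro e
    have : e < p ^ e := Nat.lt_pow_self (by omega)
    rw [hP]
    exact_mod_cast this
  have d1 : P ^ e₁ ∣ A₃ := by
    rw [← h]
    exact dvd_add (dvd_mul_left _ _) ((pow_dvd_pow _ h12).mul_left _)
  have d2 : P ^ e₁ ≤ |A₃| := by
    have := Int.le_of_dvd (abs_pos.mpr h₃) ((dvd_abs _ _).mpr d1)
    exact this
  have l1 := lt_pow e₁
  have l2 := lt_pow e₂
  have n1 := abs_nonneg A₁
  have n2 : 1 ≤ |A₂| := Int.one_le_abs h₂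
  have n3 : 1 ≤ |A₃| := Int.one_le_abs h₃
  have p2 : (0 : ℤ) < P ^ e₂ := by positivity
  have p1 : (0 : ℤ) < P ^ e₁ := by positivity
  have d3 : P ^ e₂ ≤ |A₃| + |A₁| * |A₃| := by
    have m1 : A₂ * P ^ e₂ = A₃ - A₁ * P ^ e₁ := by linarith
    have m2 : |A₂| * P ^ e₂ ≤ |A₃| + |A₁| * P ^ e₁ := by
      calc |A₂| * P ^ e₂ = |A₂ * P ^ e₂| := by rw [abs_mul, abs_of_pos p2]
        _ = |A₃ - A₁ * P ^ e₁| := by rw [m1]
        _ ≤ |A₃| + |A₁ * P ^ e₁| := abs_sub _ _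
        _ = |A₃| + |A₁| * P ^ e₁ := by rw [abs_mul, abs_of_pos p1]
    nlinarith
  constructor <;> nlinarith

lemma bd {p : ℕ} (hp : 2 ≤ p) (A₁ A₂ A₃ : ℤ) (h₁ : A₁ ≠ 0) (h₂ : A₂ ≠ 0) (h₃ : A₃ ≠ 0)
    (e₁ e₂ : ℕ) (h : A₁ * (p : ℤ) ^ e₁ + A₂ * (p : ℤ) ^ e₂ = A₃) :
    (e₁ : ℤ) ≤ (|A₁| + |A₂| + |A₃| + 1) ^ 2 ∧ (e₂ : ℤ) ≤ (|A₁| + |A₂| + |A₃| + 1) ^ 2 := by
  rcases le_total e₁ e₂ with h12 | h12
  · exact bd_aux hp A₁ A₂ A₃ h₂ h₃ e₁ e₂ h12 h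
  · have := bd_aux hp A₂ A₁ A₃ h₁ h₃ e₂ e₁ h12 (by linarith)
    have e : |A₂| + |A₁| + |A₃| + 1 = |A₁| + |A₂| + |A₃| + 1 := by ring
    rw [e] at this
    exact ⟨this.2, this.1⟩

/-- The exponents of an exact solution are bounded. -/
lemma exact_bound {p : ℕ} (hp : 2 ≤ p) (B D C : ℤ) (hB : B ≠ 0) (hD : D ≠ 0) (hC : C ≠ 0)
    (s i j : ℕ) (h : B * (p : ℤ) ^ i - D * (p : ℤ) ^ j = C * (p : ℤ) ^ s) :
    |(i : ℤ) - s| ≤ (|B| + |D| + |C| + 1) ^ 2 ∧ |(j : ℤ) - s| ≤ (|B| + |D| + |C| + 1) ^ 2 := by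
  obtain ⟨μ, i1, j1, s1, hi, hj, hs, hz⟩ : ∃ μ i1 j1 s1 : ℕ, i = μ + i1 ∧ j = μ + j1 ∧
      s = μ + s1 ∧ (i1 = 0 ∨ j1 = 0 ∨ s1 = 0) := by
    refine ⟨min i (min j s), i - min i (min j s), j - min i (min j s), s - min i (min j s),
      by omega, by omega, by omega, by omega⟩
  have hP0 : (p : ℤ) ^ μ ≠ 0 := pow_ne_zero _ (by exact_mod_cast (by omega : p ≠ 0))
  have h' : B * (p : ℤ) ^ i1 - D * (p : ℤ) ^ j1 = C * (p : ℤ) ^ s1 := by
    rw [hi, hj, hs, pow_add, pow_add, pow_add] at h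
    have : (p : ℤ) ^ μ * (B * (p : ℤ) ^ i1 - D * (p : ℤ) ^ j1) = (p : ℤ) ^ μ * (C * (p : ℤ) ^ s1) := by
      linarith
    exact mul_left_cancel₀ hP0 this
  have hi' : (i : ℤ) - s = (i1 : ℤ) - s1 := by omega
  have hj' : (j : ℤ) - s = (j1 : ℤ) - s1 := by omega
  rw [hi', hj']
  have nI : (0 : ℤ) ≤ i1 := Int.natCast_nonneg _
  have nJ : (0 : ℤ) ≤ j1 := Int.natCast_nonneg _
  have nS : (0 : ℤ) ≤ s1 := Int.natCast_nonneg _
  rcases hz with hz | hz | hz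
  · subst hz
    have := bd hp (-D) (-C) (-B) (neg_ne_zero.mpr hD) (neg_ne_zero.mpr hC) (neg_ne_zero.mpr hB)
      j1 s1 (by rw [pow_zero, mul_one] at h'; linarith)
    rw [abs_neg, abs_neg, abs_neg] at this
    have e : |D| + |C| + |B| + 1 = |B| + |D| + |C| + 1 := by ring
    rw [e] at this
    constructor <;> rw [abs_le] <;> constructor <;> push_cast at * <;> linarith [this.1, this.2]
  · subst hz
    have := bd hp B (-C) D hB (neg_ne_zero.mpr hC) hD i1 s1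
      (by rw [pow_zero, mul_one] at h'; linarith)
    rw [abs_neg] at this
    have e : |B| + |C| + |D| + 1 = |B| + |D| + |C| + 1 := by ring
    rw [e] at this
    constructor <;> rw [abs_le] <;> constructor <;> push_cast at * <;> linarith [this.1, this.2]
  · subst hz
    have := bd hp B (-D) C hB (neg_ne_zero.mpr hD) hC i1 j1
      (by rw [pow_zero, mul_one] at h'; linarith)
    rw [abs_neg] at this
    constructor <;> rw [abs_le] <;> constructor <;> push_cast at * <;> linarith [this.1, this.2]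

end Pool.Agent.TH742.HV
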