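import Pool.Agent.TH742.HV.Places

set_option autoImplicit false

/-!
The torus `T = 𝔾_m^r` and the curve `X = ℙ¹ ∖ {∞, a_1, …, a_r}` over `ℚ`, at the places outside
`S = {∞, p}`.
-/

namespace Pool.Agent.TH742.HV

open RestrictedProduct

/-- The subgroup `ℤ_ℓ^×` of `ℚ_ℓ^×`. -/
def unitGroup (p : ℕ) (v : Place p) : Subgroup (ℚ_[v.1])ˣ where
  carrier := {u | ‖(u : ℚ_[v.1])‖ = 1}
  mul_mem' := by
    intro a b ha hb
    change ‖((a * b : (ℚ_[v.1])ˣ) : ℚ_[v.1])‖ = 1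
    rw [Units.val_mul, norm_mul, ha, hb, one_mul]
  one_mem' := by
    change ‖((1 : (ℚ_[v.1])ˣ) : ℚ_[v.1])‖ = 1
    simp
  inv_mem' := by
    intro a ha
    change ‖((a⁻¹ : (ℚ_[v.1])ˣ) : ℚ_[v.1])‖ = 1
    have ha : ‖(a : ℚ_[v.1])‖ = 1 := ha
    rw [Units.val_inv_eq_inv_val, norm_inv, ha, inv_one]

/-- `𝔾_m(𝔸_ℚ^S)` for `S = {∞, p}`: the restricted product of the groups `ℚ_ℓ^×`, `ℓ ≠ p`, with
respect to the subgroups `ℤ_ℓ^×`, with the restricted product topology. -/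
abbrev Idele (p : ℕ) : Type := Πʳ v : Place p, [(ℚ_[v.1])ˣ, (unitGroup p v : Set (ℚ_[v.1])ˣ)]

lemma finite_bad (p : ℕ) {N : ℤ} (hN : N ≠ 0) : {v : Place p | (v.1 : ℤ) ∣ N}.Finite := by
  have h1 : (Set.Iic N.natAbs).Finite := Set.finite_Iic _
  refine (h1.preimage (f := fun v : Place p => v.1) (Subtype.val_injective.injOn)).subset ?_
  intro v hv
  exact Nat.le_of_dvd (Int.natAbs_pos.mpr hN) (Int.natCast_dvd.mp hv)

lemma norm_eq_one_of_not_dvd {p : ℕ} (v : Place p) (q : ℚ)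
    (h : ¬ (v.1 : ℤ) ∣ q.num * q.den) : ‖(q : ℚ_[v.1])‖ = 1 := by
  have h1 : ‖(q.num : ℚ_[v.1])‖ = 1 := by
    refine le_antisymm (Padic.norm_int_le_one _) (not_lt.mp fun hlt => h ?_)
    exact (Padic.norm_intCast_lt_one_iff.mp hlt).mul_right _
  have h2 : ‖(q.den : ℚ_[v.1])‖ = 1 := by
    refine le_antisymm (norm_le_one_nat v _) (not_lt.mp fun hlt => h ?_)
    have : ((v.1 : ℕ) : ℤ) ∣ (q.den : ℤ) := by
      exact_mod_cast Padic.norm_natCast_lt_one_iff.mp hlt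
    exact this.mul_left _
  have h3 : (q.num : ℚ_[v.1]) = (q : ℚ_[v.1]) * (q.den : ℚ_[v.1]) := by
    have := Rat.mul_den_eq_num q
    exact_mod_cast this.symm
  rw [h3, norm_mul, h2, mul_one] at h1
  exact h1

/-- The diagonal embedding `ℚ^× → 𝔾_m(𝔸_ℚ^S)`. -/
noncomputable def diag (p : ℕ) (b : ℚˣ) : Idele p :=
  ⟨fun v => Units.map (algebraMap ℚ ℚ_[v.1] : ℚ →* ℚ_[v.1]) b, by
    rw [Filter.eventually_cofinite]
    have hb : (b : ℚ).num * (b : ℚ).den ≠ 0 := by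
      apply mul_ne_zero
      · exact Rat.num_ne_zero.mpr b.ne_zero
      · exact_mod_cast (b : ℚ).den_ne_zero
    refine (finite_bad p hb).subset ?_
    intro v hv
    by_contra hd
    apply hv
    change ‖((Units.map (algebraMap ℚ ℚ_[v.1] : ℚ →* ℚ_[v.1]) b : (ℚ_[v.1])ˣ) : ℚ_[v.1])‖ = 1
    have := norm_eq_one_of_not_dvd v (b : ℚ) hd
    simpa using this⟩

/-- The subset `T(ℚ)` of `T(𝔸_ℚ^S)` for the torus `T = 𝔾_m^r`. -/
def rationalTorus (p r : ℕ) : Set (Fin r → Idele p) :=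
  Set.range fun (b : Fin r → ℚˣ) (i : Fin r) => diag p (b i)

/-- The subset `X(𝔸_ℚ^S)` of `T(𝔸_ℚ^S)` for `X = ℙ¹ ∖ {∞, a_1, …, a_r}`, embedded in the torus
`T = 𝔾_m^r` by `x ↦ (x - a_1, …, x - a_r)`. -/
def adelicPoints (p : ℕ) {r : ℕ} (a : Fin r → ℚ) : Set (Fin r → Idele p) :=
  {y | ∀ v : Place p, ∃ x : ℚ_[v.1], ∀ i, ((y i v : (ℚ_[v.1])ˣ) : ℚ_[v.1]) = x - (a i : ℚ_[v.1])}

/-- The subset `X(ℚ)` of `T(𝔸_ℚ^S)`. -/
def rationalPoints (p : ℕ) {r : ℕ} (a : Fin r → ℚ) : Set (Fin r → Idele p) :=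
  {y | ∃ q : ℚ, (∀ i, q ≠ a i) ∧
    ∀ i (v : Place p), ((y i v : (ℚ_[v.1])ˣ) : ℚ_[v.1]) = (q : ℚ_[v.1]) - (a i : ℚ_[v.1])}

end Pool.Agent.TH742.HV
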