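import Pool.Agent.TH742.HV.Places

set_option autoImplicit false

/-!
Adelic points of `u - w = c` in the closure of the rational points of the torus are rational.
-/

namespace Pool.Agent.TH742.HV

/-- `b` is close to `u` at all places of `Place p`, to the precision `N`. -/
def Near {p : ℕ} (N : ℤ) (u : ∀ v : Place p, ℚ_[v.1]) (b : ℚ) : Prop :=
  b ≠ 0 ∧ ∀ v, ‖(b : ℚ_[v.1]) / u v‖ = 1 ∧ ‖(b : ℚ_[v.1]) / u v - 1‖ ≤ ‖(N : ℚ_[v.1])‖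

lemma near_norm {p : ℕ} {N : ℤ} {u : ∀ v : Place p, ℚ_[v.1]} {b : ℚ} (h : Near N u b)
    (v : Place p) : ‖u v‖ = ‖(b : ℚ_[v.1])‖ := by
  have h1 := (h.2 v).1
  rw [norm_div] at h1
  have h2 : ‖u v‖ ≠ 0 := by
    intro h0
    rw [h0, div_zero] at h1
    exact zero_ne_one h1
  rw [div_eq_one_iff_eq h2] at h1
  exact h1.symm

lemma near_sub {p : ℕ} {N : ℤ} {u : ∀ v : Place p, ℚ_[v.1]} {b : ℚ} (h : Near N u b)
    (v : Place p) : ‖u v - b‖ ≤ ‖(b : ℚ_[v.1])‖ * ‖(N : ℚ_[v.1])‖ := by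
  have hb : (b : ℚ_[v.1]) ≠ 0 := by exact_mod_cast h.1
  have hu : u v ≠ 0 := by
    intro h0
    have := near_norm h v
    rw [h0, norm_zero] at this
    exact hb (norm_eq_zero.mp this.symm)
  have e : u v - b = -(u v * ((b : ℚ_[v.1]) / u v - 1)) := by
    field_simp
    ring
  rw [e, norm_neg, norm_mul, near_norm h v]
  exact mul_le_mul_of_nonneg_left (h.2 v).2 (norm_nonneg _)

lemma near_ratio {p : ℕ} (hp : p.Prime) {N N' : ℤ} {u : ∀ v : Place p, ℚ_[v.1]} {b b' : ℚ}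
    (h : Near N u b) (h' : Near N' u b') :
    ∃ (ε n : ℤ), (ε = 1 ∨ ε = -1) ∧ b = ε * b' * (p : ℚ) ^ n := by
  obtain ⟨n, hn⟩ := unit_away hp (q := b / b') (div_ne_zero h.1 h'.1) (fun v => by
    push_cast
    rw [norm_div, ← near_norm h v, ← near_norm h' v]
    have : (‖u v‖ : ℝ) ≠ 0 := by
      rw [near_norm h v, norm_ne_zero_iff]
      exact_mod_cast h.1
    exact div_self this)
  rcases hn with hn | hn
  · refine ⟨1, n, Or.inl rfl, ?_⟩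
    rw [div_eq_iff h'.1] at hn
    rw [hn]; push_cast; ring
  · refine ⟨-1, n, Or.inr rfl, ?_⟩
    rw [div_eq_iff h'.1] at hn
    rw [hn]; push_cast; ring

lemma zpow_sub_norm {p : ℕ} (hp : p.Prime) (k : ℕ) (n α : ℤ) (h : (k : ℤ) ∣ n - α)
    (v : Place p) :
    ‖(p : ℚ_[v.1]) ^ n - (p : ℚ_[v.1]) ^ α‖ ≤ ‖(((p : ℤ) ^ k - 1 : ℤ) : ℚ_[v.1])‖ := by
  have hp0 : (p : ℚ_[v.1]) ≠ 0 := by exact_mod_cast hp.ne_zero
  obtain ⟨t, ht⟩ : ∃ t : ℤ, 0 ≤ n + t ∧ 0 ≤ α + t := ⟨|n| + |α|, by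
    have := neg_abs_le n
    have := neg_abs_le α
    have := abs_nonneg n
    have := abs_nonneg α
    constructor <;> linarith⟩
  obtain ⟨a, ha⟩ := Int.eq_ofNat_of_zero_le ht.1
  obtain ⟨b, hb⟩ := Int.eq_ofNat_of_zero_le ht.2
  have hd : (p : ℤ) ^ k - 1 ∣ (p : ℤ) ^ a - (p : ℤ) ^ b := by
    apply pow_sub_pow_dvd
    rw [← ha, ← hb]
    simpa using h
  obtain ⟨c, hc⟩ := hd
  have e1 : (p : ℚ_[v.1]) ^ a - (p : ℚ_[v.1]) ^ b =
      (((p : ℤ) ^ k - 1 : ℤ) : ℚ_[v.1]) * (c : ℚ_[v.1]) := by exact_mod_cast hc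
  have e2 : (p : ℚ_[v.1]) ^ n - (p : ℚ_[v.1]) ^ α =
      (p : ℚ_[v.1]) ^ (-t) * ((p : ℚ_[v.1]) ^ a - (p : ℚ_[v.1]) ^ b) := by
    rw [← zpow_natCast, ← zpow_natCast, ← ha, ← hb, mul_sub, ← zpow_add₀ hp0, ← zpow_add₀ hp0]
    congr 2 <;> ring
  rw [e2, norm_mul, norm_zpow, norm_p hp v, one_zpow, one_mul, e1, norm_mul]
  exact mul_le_of_le_one_right (norm_nonneg _) (Padic.norm_int_le_one c)

/-- The main step: one level of approximation. -/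
lemma step {p : ℕ} (hp : p.Prime) {u w : ∀ v : Place p, ℚ_[v.1]} {c : ℚ} (hc : c ≠ 0)
    (huw : ∀ v, u v - w v = c) {b₀ d₀ : ℚ} (hb : Near 1 u b₀) (hd : Near 1 w d₀)
    (M : ℕ) (hM : M ≠ 0) (B D C : ℤ) (hB : (B : ℚ) = M * b₀) (hD : (D : ℚ) = M * d₀)
    (hC : (C : ℚ) = M * c) (k : ℕ) (hk : 3 * (B.natAbs + D.natAbs + C.natAbs + 1) ≤ k)
    (hex : ∃ b d : ℚ, Near ((p : ℤ) ^ k - 1) u b ∧ Near ((p : ℤ) ^ k - 1) w d) :
    ∃ ε α : ℤ, (ε = 1 ∨ ε = -1) ∧ |α| ≤ (|B| + |D| + |C| + 1) ^ 2 ∧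
      ∀ v, ‖u v - ((ε * b₀ * (p : ℚ) ^ α : ℚ) : ℚ_[v.1])‖ ≤
        ‖(b₀ : ℚ_[v.1])‖ * ‖(((p : ℤ) ^ k - 1 : ℤ) : ℚ_[v.1])‖ := by
  have hp0 : (p : ℚ) ≠ 0 := by exact_mod_cast hp.ne_zero
  have hM0 : (M : ℚ) ≠ 0 := by exact_mod_cast hM
  have hB0 : B ≠ 0 := by
    intro h
    rw [h, Int.cast_zero] at hB
    exact mul_ne_zero hM0 hb.1 hB.symm
  have hD0 : D ≠ 0 := by
    intro h
    rw [h, Int.cast_zero] at hD
    exact mul_ne_zero hM0 hd.1 hD.symm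
  have hC0 : C ≠ 0 := by
    intro h
    rw [h, Int.cast_zero] at hC
    exact mul_ne_zero hM0 hc hC.symm
  have hk0 : 0 < k := by omega
  obtain ⟨b, d, hb1, hd1⟩ := hex
  obtain ⟨ε, n, hε, hbn⟩ := near_ratio hp hb1 hb
  obtain ⟨δ, m, hδ, hdm⟩ := near_ratio hp hd1 hd
  set N : ℤ := (p : ℤ) ^ k - 1 with hN
  -- exponents made nonnegative
  obtain ⟨t, ht1, ht2⟩ : ∃ t : ℕ, 0 ≤ n + t ∧ 0 ≤ m + t := ⟨n.natAbs + m.natAbs, by omega, by omega⟩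
  obtain ⟨e₁, he₁⟩ := Int.eq_ofNat_of_zero_le ht1
  obtain ⟨e₂, he₂⟩ := Int.eq_ofNat_of_zero_le ht2
  set Z : ℤ := (ε * B) * (p : ℤ) ^ e₁ - (δ * D) * (p : ℤ) ^ e₂ - C * (p : ℤ) ^ t with hZ
  have hZq : (Z : ℚ) = (p : ℚ) ^ t * (M * (b - d - c)) := by
    rw [hZ, hbn, hdm]
    push_cast
    rw [hB, hD, hC, ← zpow_natCast (p : ℚ) e₁, ← zpow_natCast (p : ℚ) e₂, ← he₁, ← he₂,
      zpow_add₀ hp0, zpow_add₀ hp0, zpow_natCast]
    ring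
  have hdvd : N ∣ Z := by
    apply dvd_of_norm hp
    · rw [hN]
      intro hdv
      have h1 : (p : ℤ) ∣ (p : ℤ) ^ k := dvd_pow_self _ hk0.ne'
      have h2 := dvd_sub h1 hdv
      rw [sub_sub_cancel] at h2
      have h3 : p ∣ 1 := by exact_mod_cast h2
      exact hp.one_lt.ne' (Nat.dvd_one.mp h3)
    · intro v
      have e1 : (Z : ℚ_[v.1]) = (p : ℚ_[v.1]) ^ t *
          (((M : ℚ_[v.1]) * (b - u v)) - ((M : ℚ_[v.1]) * (d - w v))) := by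
        have h1 : (Z : ℚ_[v.1]) = ((Z : ℚ) : ℚ_[v.1]) := by push_cast; rfl
        rw [h1, hZq]
        push_cast
        rw [← huw v]
        ring
      have hMb : ‖(M : ℚ_[v.1]) * (b - u v)‖ ≤ ‖(N : ℚ_[v.1])‖ := by
        rw [norm_mul, norm_sub_rev]
        have h1 := near_sub hb1 v
        rw [← near_norm hb1 v, near_norm hb v] at h1
        have h2 : ‖(M : ℚ_[v.1])‖ * ‖(b₀ : ℚ_[v.1])‖ ≤ 1 := by
          rw [← norm_mul]
          have h3 : (M : ℚ_[v.1]) * (b₀ : ℚ_[v.1]) = (B : ℚ_[v.1]) := by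
            have : ((B : ℚ) : ℚ_[v.1]) = ((M * b₀ : ℚ) : ℚ_[v.1]) := by rw [hB]
            push_cast at this
            exact this.symm
          rw [h3]
          exact Padic.norm_int_le_one B
        calc ‖(M : ℚ_[v.1])‖ * ‖u v - b‖
            ≤ ‖(M : ℚ_[v.1])‖ * (‖(b₀ : ℚ_[v.1])‖ * ‖(N : ℚ_[v.1])‖) :=
              mul_le_mul_of_nonneg_left h1 (norm_nonneg _)
          _ = (‖(M : ℚ_[v.1])‖ * ‖(b₀ : ℚ_[v.1])‖) * ‖(N : ℚ_[v.1])‖ := by ring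
          _ ≤ 1 * ‖(N : ℚ_[v.1])‖ := mul_le_mul_of_nonneg_right h2 (norm_nonneg _)
          _ = _ := one_mul _
      have hMd : ‖(M : ℚ_[v.1]) * (d - w v)‖ ≤ ‖(N : ℚ_[v.1])‖ := by
        rw [norm_mul, norm_sub_rev]
        have h1 := near_sub hd1 v
        rw [← near_norm hd1 v, near_norm hd v] at h1
        have h2 : ‖(M : ℚ_[v.1])‖ * ‖(d₀ : ℚ_[v.1])‖ ≤ 1 := by
          rw [← norm_mul]
          have h3 : (M : ℚ_[v.1]) * (d₀ : ℚ_[v.1]) = (D : ℚ_[v.1]) := by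
            have : ((D : ℚ) : ℚ_[v.1]) = ((M * d₀ : ℚ) : ℚ_[v.1]) := by rw [hD]
            push_cast at this
            exact this.symm
          rw [h3]
          exact Padic.norm_int_le_one D
        calc ‖(M : ℚ_[v.1])‖ * ‖w v - d‖
            ≤ ‖(M : ℚ_[v.1])‖ * (‖(d₀ : ℚ_[v.1])‖ * ‖(N : ℚ_[v.1])‖) :=
              mul_le_mul_of_nonneg_left h1 (norm_nonneg _)
          _ = (‖(M : ℚ_[v.1])‖ * ‖(d₀ : ℚ_[v.1])‖) * ‖(N : ℚ_[v.1])‖ := by ring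
          _ ≤ 1 * ‖(N : ℚ_[v.1])‖ := mul_le_mul_of_nonneg_right h2 (norm_nonneg _)
          _ = _ := one_mul _
      rw [e1, norm_mul, norm_pow, norm_p hp v, one_pow, one_mul, sub_eq_add_neg]
      refine (Padic.nonarchimedean _ _).trans (max_le hMb ?_)
      rw [norm_neg]
      exact hMd
  have habs : ∀ x y : ℤ, (x = 1 ∨ x = -1) → (x * y).natAbs = y.natAbs := by
    intro x y hx
    rcases hx with rfl | rfl <;> simp
  have habs' : ∀ x y : ℤ, (x = 1 ∨ x = -1) → |x * y| = |y| := by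
    intro x y hx
    rcases hx with rfl | rfl <;> simp
  have hne : ∀ x y : ℤ, (x = 1 ∨ x = -1) → y ≠ 0 → x * y ≠ 0 := by
    intro x y hx hy
    rcases hx with rfl | rfl <;> simpa using hy
  obtain ⟨s, i, j, hex1, hex2, -⟩ := exact_of_congr hp.two_le k (ε * B) (δ * D) C
    (by rw [habs ε B hε, habs δ D hδ]; exact hk) e₁ e₂ t hdvd
  have hbd := (exact_bound hp.two_le (ε * B) (δ * D) C (hne ε B hε hB0) (hne δ D hδ hD0) hC0
    s i j hex1).1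
  rw [habs' ε B hε, habs' δ D hδ] at hbd
  refine ⟨ε, (i : ℤ) - s, hε, hbd, fun v => ?_⟩
  have hkn : (k : ℤ) ∣ n - ((i : ℤ) - s) := by
    have : (e₁ : ℤ) - t = n := by
      have := he₁
      linarith
    rwa [this] at hex2
  have e2 : u v - ((ε * b₀ * (p : ℚ) ^ ((i : ℤ) - s) : ℚ) : ℚ_[v.1]) = (u v - b) +
      ((ε : ℚ_[v.1]) * b₀) * ((p : ℚ_[v.1]) ^ n - (p : ℚ_[v.1]) ^ ((i : ℤ) - s)) := by
    rw [hbn]
    push_cast
    ring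
  have hε1 : ‖(ε : ℚ_[v.1])‖ ≤ 1 := Padic.norm_int_le_one ε
  rw [e2]
  refine (Padic.nonarchimedean _ _).trans (max_le ?_ ?_)
  · have h1 := near_sub hb1 v
    rwa [← near_norm hb1 v, near_norm hb v] at h1
  · rw [norm_mul, norm_mul]
    have h1 := zpow_sub_norm hp k n ((i : ℤ) - s) hkn v
    calc ‖(ε : ℚ_[v.1])‖ * ‖(b₀ : ℚ_[v.1])‖ * ‖(p : ℚ_[v.1]) ^ n - (p : ℚ_[v.1]) ^ ((i : ℤ) - s)‖
        ≤ 1 * ‖(b₀ : ℚ_[v.1])‖ * ‖(N : ℚ_[v.1])‖ := by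
          apply mul_le_mul _ h1 (norm_nonneg _) (by positivity)
          exact mul_le_mul_of_nonneg_right hε1 (norm_nonneg _)
      _ = _ := by rw [one_mul]

/-- `ℓ^e ∣ p^(K!) - 1` for `K ≥ ℓ^e`. -/
lemma norm_factorial {p : ℕ} (hp : p.Prime) (v : Place p) (e K : ℕ) (hK : v.1 ^ e ≤ K) :
    ‖(((p : ℤ) ^ K.factorial - 1 : ℤ) : ℚ_[v.1])‖ ≤ (v.1 : ℝ) ^ (-e : ℤ) := by
  rw [Padic.norm_int_le_pow_iff_dvd]
  have hcop : Nat.Coprime p (v.1 ^ e) :=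
    Nat.Coprime.pow_right e ((Nat.coprime_primes hp v.2.1).mpr (fun h => v.2.2 h.symm))
  have h1 := Nat.ModEq.pow_totient hcop
  have h2 : ((v.1 ^ e : ℕ) : ℤ) ∣ (p : ℤ) ^ (v.1 ^ e).totient - 1 := by
    have := (Nat.modEq_iff_dvd.mp h1.symm)
    push_cast at this ⊢
    exact this
  have hpos : 0 < (v.1 ^ e).totient := Nat.totient_pos.mpr (pow_pos v.2.1.pos e)
  have h3 : (v.1 ^ e).totient ∣ K.factorial :=
    Nat.dvd_factorial hpos ((Nat.totient_le _).trans hK)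
  obtain ⟨c, hc⟩ := h3
  have h4 : (p : ℤ) ^ (v.1 ^ e).totient - 1 ∣ (p : ℤ) ^ K.factorial - 1 := by
    rw [hc, pow_mul]
    have := sub_dvd_pow_sub_pow ((p : ℤ) ^ (v.1 ^ e).totient) 1 c
    rwa [one_pow] at this
  have := h2.trans h4
  push_cast at this
  exact this

theorem key {p : ℕ} (hp : p.Prime) {u w : ∀ v : Place p, ℚ_[v.1]} {c : ℚ} (hc : c ≠ 0)
    (huw : ∀ v, u v - w v = c)
    (hex : ∀ N : ℤ, N ≠ 0 → ∃ b d : ℚ, Near N u b ∧ Near N w d) :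
    ∃ q : ℚ, ∀ v, u v = q := by
  obtain ⟨b₀, d₀, hb, hd⟩ := hex 1 one_ne_zero
  -- a common denominator
  obtain ⟨M, B, D, C, hM, hB, hD, hC⟩ : ∃ (M : ℕ) (B D C : ℤ), M ≠ 0 ∧ (B : ℚ) = M * b₀ ∧
      (D : ℚ) = M * d₀ ∧ (C : ℚ) = M * c := by
    refine ⟨b₀.den * d₀.den * c.den, b₀.num * d₀.den * c.den, b₀.den * d₀.num * c.den,
      b₀.den * d₀.den * c.num, ?_, ?_, ?_, ?_⟩
    · exact mul_ne_zero (mul_ne_zero b₀.den_ne_zero d₀.den_ne_zero) c.den_ne_zero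
    · have := Rat.mul_den_eq_num b₀
      push_cast
      rw [← this]; ring
    · have := Rat.mul_den_eq_num d₀
      push_cast
      rw [← this]; ring
    · have := Rat.mul_den_eq_num c
      push_cast
      rw [← this]; ring
  set R : ℤ := (|B| + |D| + |C| + 1) ^ 2 with hR
  set F : Finset (ℤ × ℤ) := {1, -1} ×ˢ Finset.Icc (-R) R with hF
  set P : ℕ → ℤ × ℤ → Prop := fun K f =>
    ∀ v : Place p, ‖u v - ((f.1 * b₀ * (p : ℚ) ^ f.2 : ℚ) : ℚ_[v.1])‖ ≤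
        ‖(b₀ : ℚ_[v.1])‖ * ‖(((p : ℤ) ^ K.factorial - 1 : ℤ) : ℚ_[v.1])‖ with hP
  have h1 : ∀ K, 3 * (B.natAbs + D.natAbs + C.natAbs + 1) ≤ K → ∃ f ∈ F, P K f := by
    intro K hK
    have hK' : 3 * (B.natAbs + D.natAbs + C.natAbs + 1) ≤ K.factorial :=
      hK.trans (Nat.self_le_factorial K)
    have hN : (p : ℤ) ^ K.factorial - 1 ≠ 0 := by
      have : (1 : ℤ) < (p : ℤ) ^ K.factorial :=
        one_lt_pow₀ (by exact_mod_cast hp.one_lt) (Nat.factorial_ne_zero K)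
      omega
    obtain ⟨ε, α, h2, h3, h4⟩ := step hp hc huw hb hd M hM B D C hB hD hC K.factorial hK'
      (hex _ hN)
    refine ⟨(ε, α), ?_, h4⟩
    rw [hF, Finset.mem_product, Finset.mem_insert, Finset.mem_singleton, Finset.mem_Icc]
    exact ⟨h2, abs_le.mp h3⟩
  obtain ⟨f, -, h2⟩ : ∃ f ∈ F, ∀ K₁ : ℕ, ∃ K, K₁ ≤ K ∧ P K f := by
    by_contra hcon
    push Not at hcon
    choose! g hg using hcon
    obtain ⟨f, hf, hPf⟩ := h1 (max (3 * (B.natAbs + D.natAbs + C.natAbs + 1)) (F.sup g))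
      (le_max_left _ _)
    exact hg f hf _ ((Finset.le_sup hf).trans (le_max_right _ _)) hPf
  refine ⟨f.1 * b₀ * (p : ℚ) ^ f.2, fun v => ?_⟩
  rw [← sub_eq_zero, ← norm_le_zero_iff]
  have hv : (1 : ℝ) < v.1 := by exact_mod_cast v.2.1.one_lt
  have h3 : ∀ e : ℕ, ‖u v - ((f.1 * b₀ * (p : ℚ) ^ f.2 : ℚ) : ℚ_[v.1])‖ ≤
      ‖(b₀ : ℚ_[v.1])‖ * ((v.1 : ℝ)⁻¹) ^ e := by
    intro e
    obtain ⟨K, hK, hPK⟩ := h2 (v.1 ^ e)
    refine (hPK v).trans (mul_le_mul_of_nonneg_left ?_ (norm_nonneg _))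
    have := norm_factorial hp v e K hK
    rwa [zpow_neg, zpow_natCast, ← inv_pow] at this
  have h4 : Filter.Tendsto (fun e : ℕ => ‖(b₀ : ℚ_[v.1])‖ * ((v.1 : ℝ)⁻¹) ^ e) Filter.atTop
      (nhds (‖(b₀ : ℚ_[v.1])‖ * 0)) :=
    (tendsto_pow_atTop_nhds_zero_of_lt_one (by positivity) (inv_lt_one_of_one_lt₀ hv)).const_mul _
  rw [mul_zero] at h4
  exact ge_of_tendsto' h4 h3

end Pool.Agent.TH742.HV
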