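import Pool.Agent.TH742.HV.Defs
import Pool.Agent.TH742.HV.Key

set_option autoImplicit false

/-!
The closure of `T(ℚ)` in `T(𝔸_ℚ^S)` meets `X(𝔸_ℚ^S)` in `X(ℚ)`.
-/

namespace Pool.Agent.TH742.HV

open RestrictedProduct

lemma isOpen_unitGroup (p : ℕ) (v : Place p) : IsOpen (unitGroup p v : Set (ℚ_[v.1])ˣ) := by
  have h1 : (unitGroup p v : Set (ℚ_[v.1])ˣ) =
      (fun u : (ℚ_[v.1])ˣ => (u : ℚ_[v.1])) ⁻¹' (Metric.sphere 0 1) := by
    ext u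
    rw [Set.mem_preimage, mem_sphere_zero_iff_norm]
    rfl
  rw [h1]
  exact (IsUltrametricDist.isOpen_sphere (x := (0 : ℚ_[v.1])) one_ne_zero).preimage
    Units.continuous_val

instance (p : ℕ) : Fact (∀ v : Place p, IsOpen (unitGroup p v : Set (ℚ_[v.1])ˣ)) :=
  ⟨isOpen_unitGroup p⟩

/-- A neighbourhood of `1` in `𝔾_m(𝔸_ℚ^S)`. -/
def nbhd (p : ℕ) (N : ℤ) : Set (Idele p) :=
  {g | ∀ v : Place p, g v ∈ (unitGroup p v : Set (ℚ_[v.1])ˣ)} ∩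
    ⋂ v ∈ {v : Place p | (v.1 : ℤ) ∣ N},
      {g : Idele p | ‖((g v : (ℚ_[v.1])ˣ) : ℚ_[v.1]) - 1‖ < ‖(N : ℚ_[v.1])‖}

lemma isOpen_nbhd (p : ℕ) {N : ℤ} (hN : N ≠ 0) : IsOpen (nbhd p N) := by
  refine IsOpen.inter ?_ ?_
  · exact RestrictedProduct.isOpen_forall_mem (isOpen_unitGroup p)
  · refine (finite_bad p hN).isOpen_biInter fun v _ => ?_
    have h1 : Continuous fun g : Idele p => ((g v : (ℚ_[v.1])ˣ) : ℚ_[v.1]) :=
      Units.continuous_val.comp (RestrictedProduct.continuous_eval v)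
    exact isOpen_lt (continuous_norm.comp (h1.sub continuous_const)) continuous_const

lemma mem_nbhd {p : ℕ} {N : ℤ} {g : Idele p} (hg : g ∈ nbhd p N) (v : Place p) :
    ‖((g v : (ℚ_[v.1])ˣ) : ℚ_[v.1])‖ = 1 ∧
      ‖((g v : (ℚ_[v.1])ˣ) : ℚ_[v.1]) - 1‖ ≤ ‖(N : ℚ_[v.1])‖ := by
  have h1 : ‖((g v : (ℚ_[v.1])ˣ) : ℚ_[v.1])‖ = 1 := hg.1 v
  refine ⟨h1, ?_⟩
  by_cases hv : (v.1 : ℤ) ∣ N
  · have h2 := hg.2
    rw [Set.mem_iInter₂] at h2
    exact (h2 v hv).le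
  · have h3 : ‖(N : ℚ_[v.1])‖ = 1 :=
      le_antisymm (Padic.norm_int_le_one _)
        (not_lt.mp fun hlt => hv (Padic.norm_intCast_lt_one_iff.mp hlt))
    rw [h3, sub_eq_add_neg]
    refine (Padic.nonarchimedean _ _).trans (max_le h1.le ?_)
    rw [norm_neg, norm_one]

lemma one_mem_nbhd (p : ℕ) {N : ℤ} (hN : N ≠ 0) : (1 : Idele p) ∈ nbhd p N := by
  refine ⟨fun v => (unitGroup p v).one_mem, ?_⟩
  rw [Set.mem_iInter₂]
  intro v _
  change ‖(((1 : Idele p) v : (ℚ_[v.1])ˣ) : ℚ_[v.1]) - 1‖ < ‖(N : ℚ_[v.1])‖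
  rw [RestrictedProduct.one_apply, Units.val_one, sub_self, norm_zero, norm_pos_iff]
  exact_mod_cast hN

lemma approx {p r : ℕ} {y : Fin r → Idele p} (hy : y ∈ closure (rationalTorus p r)) {N : ℤ}
    (hN : N ≠ 0) : ∃ b : Fin r → ℚˣ, ∀ i (v : Place p),
      ‖((b i : ℚ) : ℚ_[v.1]) / ((y i v : (ℚ_[v.1])ˣ) : ℚ_[v.1])‖ = 1 ∧
      ‖((b i : ℚ) : ℚ_[v.1]) / ((y i v : (ℚ_[v.1])ˣ) : ℚ_[v.1]) - 1‖ ≤ ‖(N : ℚ_[v.1])‖ := by
  have hO : IsOpen (⋂ i : Fin r, (fun z : Fin r → Idele p => z i * (y i)⁻¹) ⁻¹' (nbhd p N)) := by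
    refine isOpen_iInter_of_finite fun i => (isOpen_nbhd p hN).preimage ?_
    exact (continuous_apply i).mul continuous_const
  have hyO : y ∈ ⋂ i : Fin r, (fun z : Fin r → Idele p => z i * (y i)⁻¹) ⁻¹' (nbhd p N) := by
    rw [Set.mem_iInter]
    intro i
    rw [Set.mem_preimage, mul_inv_cancel]
    exact one_mem_nbhd p hN
  obtain ⟨z, hz, b, rfl⟩ := mem_closure_iff.mp hy _ hO hyO
  refine ⟨b, fun i v => ?_⟩
  rw [Set.mem_iInter] at hz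
  have h1 := mem_nbhd (hz i) v
  have h2 : (((diag p (b i) * (y i)⁻¹ : Idele p) v : (ℚ_[v.1])ˣ) : ℚ_[v.1]) =
      ((b i : ℚ) : ℚ_[v.1]) / ((y i v : (ℚ_[v.1])ˣ) : ℚ_[v.1]) := by
    rw [RestrictedProduct.mul_apply, RestrictedProduct.inv_apply, Units.val_mul,
      Units.val_inv_eq_inv_val, div_eq_mul_inv]
    congr 1
  dsimp only at h1
  rw [h2] at h1
  exact h1

theorem main (p : ℕ) (hp : p.Prime) (r : ℕ) (hr : 2 ≤ r) (a : Fin r → ℚ)
    (ha : Function.Injective a) :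
    closure (rationalTorus p r) ∩ adelicPoints p a = rationalPoints p a := by
  apply Set.Subset.antisymm
  · rintro y ⟨hy, hx⟩
    choose x hx using hx
    set i0 : Fin r := ⟨0, by omega⟩ with hi0
    set i1 : Fin r := ⟨1, by omega⟩ with hi1
    have h01 : i0 ≠ i1 := by
      intro h
      have := congrArg Fin.val h
      simp [hi0, hi1] at this
    have hc : a i1 - a i0 ≠ 0 := sub_ne_zero.mpr fun h => h01 (ha h.symm)
    obtain ⟨q, hq⟩ := key hp (u := fun v => ((y i0 v : (ℚ_[v.1])ˣ) : ℚ_[v.1]))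
      (w := fun v => ((y i1 v : (ℚ_[v.1])ˣ) : ℚ_[v.1])) hc (fun v => by
        rw [hx v i0, hx v i1]; push_cast; ring) (fun N hN => by
        obtain ⟨b, hb⟩ := approx hy hN
        exact ⟨b i0, b i1, ⟨(b i0).ne_zero, fun v => hb i0 v⟩, ⟨(b i1).ne_zero, fun v => hb i1 v⟩⟩)
    have hxq : ∀ v : Place p, x v = ((q + a i0 : ℚ) : ℚ_[v.1]) := by
      intro v
      have h1 : ((y i0 v : (ℚ_[v.1])ˣ) : ℚ_[v.1]) = q := hq v
      rw [hx v i0] at h1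
      push_cast
      rw [← h1]; ring
    refine ⟨q + a i0, fun i hi => ?_, fun i v => by rw [hx v i, hxq v]⟩
    obtain ⟨v⟩ : Nonempty (Place p) := by
      by_cases h2 : p = 2
      · exact ⟨⟨3, Nat.prime_three, by omega⟩⟩
      · exact ⟨⟨2, Nat.prime_two, fun h => h2 h.symm⟩⟩
    have h3 := hx v i
    rw [hxq v, hi, sub_self] at h3
    exact (y i v).ne_zero h3
  · rintro y ⟨q, hq, hy⟩
    refine ⟨subset_closure ?_, fun v => ⟨(q : ℚ_[v.1]), fun i => hy i v⟩⟩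
    refine ⟨fun i => Units.mk0 (q - a i) (sub_ne_zero.mpr (hq i)), ?_⟩
    funext i
    apply RestrictedProduct.ext
    intro v
    apply Units.ext
    rw [hy i v]
    change ((algebraMap ℚ ℚ_[v.1]) (q - a i)) = _
    simp

end Pool.Agent.TH742.HV
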