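import Pool.Agent.TH742.HV.Arith

set_option autoImplicit false

/-!
Rational numbers at the primes different from `p`.
-/

namespace Pool.Agent.TH742.HV

/-- The finite places of `ℚ` outside `S = {∞, p}`: the primes different from `p`. -/
def Place (p : ℕ) : Type := {ℓ : ℕ // ℓ.Prime ∧ ℓ ≠ p}

instance (p : ℕ) (v : Place p) : Fact (v.1).Prime := ⟨v.2.1⟩

lemma norm_p {p : ℕ} (hp : p.Prime) (v : Place p) : ‖(p : ℚ_[v.1])‖ = 1 := by
  rw [Padic.norm_natCast_eq_one_iff]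
  exact (Nat.coprime_primes v.2.1 hp).mpr v.2.2

lemma norm_le_one_nat {p : ℕ} (v : Place p) (n : ℕ) : ‖(n : ℚ_[v.1])‖ ≤ 1 := by
  have := Padic.norm_int_le_one (p := v.1) (n : ℤ)
  simpa using this

/-- A rational number which is a unit at all primes is `±1`. -/
lemma eq_one_or_neg_one {q : ℚ} (h : ∀ (ℓ : ℕ) [Fact ℓ.Prime], ‖(q : ℚ_[ℓ])‖ = 1) :
    q = 1 ∨ q = -1 := by
  have hnd : ∀ (ℓ : ℕ) [Fact ℓ.Prime], ‖(q.num : ℚ_[ℓ])‖ = ‖(q.den : ℚ_[ℓ])‖ := by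
    intro ℓ _
    have h1 : (q.num : ℚ_[ℓ]) = (q : ℚ_[ℓ]) * (q.den : ℚ_[ℓ]) := by
      have := Rat.mul_den_eq_num q
      exact_mod_cast this.symm
    rw [h1, norm_mul, h ℓ, one_mul]
  have hnot : ∀ ℓ : ℕ, ℓ.Prime → ¬ (ℓ ∣ q.den ∨ ℓ ∣ q.num.natAbs) := by
    intro ℓ hℓ hd
    have : Fact ℓ.Prime := ⟨hℓ⟩
    have e := hnd ℓ
    have key : ℓ ∣ q.den ↔ ℓ ∣ q.num.natAbs := by
      rw [← Padic.norm_natCast_lt_one_iff (p := ℓ) (n := q.den), ← e,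
        Padic.norm_intCast_lt_one_iff, Int.natCast_dvd]
    have hboth : ℓ ∣ q.den ∧ ℓ ∣ q.num.natAbs := by tauto
    have hc := q.reduced
    exact Nat.Prime.one_lt hℓ |>.ne' (Nat.dvd_one.mp (by
      rw [← Nat.Coprime.gcd_eq_one hc]
      exact Nat.dvd_gcd hboth.2 hboth.1))
  have h1 : q.den = 1 := by
    by_contra hne
    obtain ⟨ℓ, hℓ, hd⟩ := Nat.exists_prime_and_dvd hne
    exact hnot ℓ hℓ (Or.inl hd)
  have h2 : q.num.natAbs = 1 := by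
    by_contra hne
    obtain ⟨ℓ, hℓ, hd⟩ := Nat.exists_prime_and_dvd hne
    exact hnot ℓ hℓ (Or.inr hd)
  have h3 : q = q.num := by
    conv_lhs => rw [← Rat.num_div_den q, h1]
    simp
  rcases Int.natAbs_eq_iff.mp h2 with h4 | h4
  · left; rw [h3, h4]; simp
  · right; rw [h3, h4]; simp

/-- A nonzero rational number which is a unit at all primes different from `p` is `±p^n`. -/
lemma unit_away {p : ℕ} (hp : p.Prime) {q : ℚ} (hq : q ≠ 0)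
    (h : ∀ v : Place p, ‖(q : ℚ_[v.1])‖ = 1) : ∃ n : ℤ, q = (p : ℚ) ^ n ∨ q = -(p : ℚ) ^ n := by
  have : Fact p.Prime := ⟨hp⟩
  have hp0 : (p : ℚ) ≠ 0 := by exact_mod_cast hp.ne_zero
  refine ⟨(q : ℚ_[p]).valuation, ?_⟩
  set n : ℤ := (q : ℚ_[p]).valuation with hn
  have hpn : (p : ℚ) ^ n ≠ 0 := zpow_ne_zero _ hp0
  have key : q / (p : ℚ) ^ n = 1 ∨ q / (p : ℚ) ^ n = -1 := by
    apply eq_one_or_neg_one
    intro ℓ hℓ
    have e : ((q / (p : ℚ) ^ n : ℚ) : ℚ_[ℓ]) = (q : ℚ_[ℓ]) / (p : ℚ_[ℓ]) ^ n := by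
      push_cast
      rfl
    rw [e, norm_div, norm_zpow]
    by_cases hlp : ℓ = p
    · subst hlp
      have hq' : (q : ℚ_[ℓ]) ≠ 0 := by exact_mod_cast hq
      rw [Padic.norm_eq_zpow_neg_valuation hq', Padic.norm_p, ← hn, inv_zpow, zpow_neg]
      have : ((ℓ : ℝ) ^ n)⁻¹ ≠ 0 := inv_ne_zero (zpow_ne_zero _ (by exact_mod_cast hℓ.out.ne_zero))
      exact div_self this
    · have h1 := h ⟨ℓ, hℓ.out, hlp⟩
      have h2 := norm_p hp ⟨ℓ, hℓ.out, hlp⟩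
      change ‖(q : ℚ_[ℓ])‖ = 1 at h1
      change ‖(p : ℚ_[ℓ])‖ = 1 at h2
      rw [h1, h2, one_zpow, div_one]
  rcases key with hk | hk
  · left
    rw [div_eq_iff hpn, one_mul] at hk
    exact hk
  · right
    rw [div_eq_iff hpn] at hk
    rw [hk]; ring

/-- Divisibility of integers tested at the primes different from `p`. -/
lemma dvd_of_norm {p : ℕ} (hp : p.Prime) (z N : ℤ) (hN : ¬ (p : ℤ) ∣ N)
    (h : ∀ v : Place p, ‖(z : ℚ_[v.1])‖ ≤ ‖(N : ℚ_[v.1])‖) : N ∣ z := by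
  rw [← Int.natAbs_dvd_natAbs, Nat.dvd_iff_prime_pow_dvd_dvd]
  intro ℓ e hℓ hd
  by_cases hlp : ℓ = p
  · subst hlp
    rcases Nat.eq_zero_or_pos e with he | he
    · subst he; simp
    · exfalso
      apply hN
      rw [Int.natCast_dvd]
      exact (dvd_pow_self ℓ he.ne').trans hd
  · have h1 := h ⟨ℓ, hℓ, hlp⟩
    have : Fact ℓ.Prime := ⟨hℓ⟩
    change ‖(z : ℚ_[ℓ])‖ ≤ ‖(N : ℚ_[ℓ])‖ at h1
    have h2 : ‖(N : ℚ_[ℓ])‖ ≤ (ℓ : ℝ) ^ (-e : ℤ) := by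
      rw [Padic.norm_int_le_pow_iff_dvd]
      have : ((ℓ ^ e : ℕ) : ℤ) ∣ N := by rw [Int.natCast_dvd]; exact hd
      exact_mod_cast this
    have h3 := h1.trans h2
    rw [Padic.norm_int_le_pow_iff_dvd] at h3
    have h4 : ((ℓ ^ e : ℕ) : ℤ) ∣ z := by exact_mod_cast h3
    rwa [Int.natCast_dvd] at h4

end Pool.Agent.TH742.HV
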